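import Pool.Agent.K1H97.CU.Main
import Pool.Agent.Z864.SX.SelH
import Pool.Agent.Y214.SX.RKSHA
import Pool.Agent.W597.SE.SELC
import Pool.Agent.W307.SE.Fin
import Pool.Agent.W410.FK.FINH
import Pool.Agent.W402.FK.RKS

/-!
# The 2-Selmer group has order four if and only if there are finitely many points and `Ш[2] = 0`
-/

set_option autoImplicit false

namespace Pool.Agent.K1H84.DI

open Pool.Agent.W307.SE (Sel SelR)
open Pool.Agent.W307.RT (Sh)
open Pool.Agent.TH841.SH.D (Sha)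
open Pool.Agent.K1H97.CU (Tv fin_R)

variable {A B e1 e2 e3 : ℤ}

/-- the 2-Selmer group is finite -/
lemma selR_fin (hD : 4 * A ^ 3 + 27 * B ^ 2 ≠ 0)
    (hr : ∀ x : ℤ, x ^ 3 + A * x + B = (x - e1) * (x - e2) * (x - e3)) :
    (SelR A B).Finite := by
  obtain ⟨h12, h13, h23⟩ := Pool.Agent.W402.FK.dist A B e1 e2 e3 hD hr
  have hf : (Sel (e2 - e1) (e3 - e1)).Finite :=
    Pool.Agent.W307.SE.sel_fin Pool.Agent.W410.FK.seld (sub_ne_zero.2 h12.symm)
      (sub_ne_zero.2 h13.symm) (fun h => h23 (by linarith))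
  exact (Pool.Agent.W597.SE.selc A B e1 e2 e3 (e2 - e1) (e3 - e1) 1 hD hr one_ne_zero
    (by ring) (by ring) hf).1

/-- **The criterion.** -/
theorem small_iff (hD : 4 * A ^ 3 + 27 * B ^ 2 ≠ 0)
    (hr : ∀ x : ℤ, x ^ 3 + A * x + B = (x - e1) * (x - e2) * (x - e3)) :
    ((SelR A B).Finite ∧ (SelR A B).ncard ≤ 4) ↔ Tv (Sh A B) := by
  obtain ⟨h12, h13, h23⟩ := Pool.Agent.W402.FK.dist A B e1 e2 e3 hD hr
  have hRf := selR_fin hD hr
  obtain ⟨h1, h2⟩ := Pool.Agent.Z864.SX.SELH A B e1 e2 e3 hD hr hRf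
  obtain ⟨h3, h4⟩ := Pool.Agent.Y214.SX.RKSHA A B e1 e2 e3 hD hr h1
  have : Finite {x : Sha (Sh A B) // x + x = 0} := h3
  have hne : Nonempty {x : Sha (Sh A B) // x + x = 0} := ⟨⟨0, add_zero 0⟩⟩
  have hpos : 0 < Nat.card {x : Sha (Sh A B) // x + x = 0} := Nat.card_pos
  rw [h2] at h4
  constructor
  · rintro ⟨-, h5⟩
    set n := Nat.card {x : Sha (Sh A B) // x + x = 0} with hn
    set r := Module.finrank ℤ (Sh A B).toAffine.Point with hrk
    have h6 : 2 ^ r * n ≤ 1 := by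
      have : 4 * (2 ^ r * n) ≤ 4 := by
        calc 4 * (2 ^ r * n) = 2 ^ (r + 2) * n := by ring
          _ ≤ 4 := by rw [h4]; exact h5
      omega
    have h7 : 1 ≤ 2 ^ r := Nat.one_le_two_pow
    have h8 : 2 ^ r ≤ 1 := le_trans (Nat.le_mul_of_pos_right _ hpos) h6
    have h9 : n ≤ 1 := le_trans (Nat.le_mul_of_pos_left _ h7) h6
    have hr0 : r = 0 := by
      by_contra h
      have : 2 ^ 1 ≤ 2 ^ r := Nat.pow_le_pow_right (by norm_num) (Nat.one_le_iff_ne_zero.2 h)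
      omega
    refine ⟨fin_R (Pool.Agent.TH841.SH.isR_Sh hr) h12 h13 h23 hr0, fun x hx => ?_⟩
    have h10 : Subsingleton {x : Sha (Sh A B) // x + x = 0} :=
      (Finite.card_le_one_iff_subsingleton).1 h9
    have := congrArg Subtype.val (h10.elim ⟨x, hx⟩ ⟨0, add_zero 0⟩)
    exact this
  · rintro ⟨h5, h6⟩
    refine ⟨hRf, ?_⟩
    have h7 : Module.finrank ℤ (Sh A B).toAffine.Point = 0 := by
      have : Finite (Sh A B).toAffine.Point := h5
      exact Module.finrank_eq_zero_iff_isTorsion.2 (isAddTorsion_iff_isTorsion_int.1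
        (isAddTorsion_of_finite (G := (Sh A B).toAffine.Point)))
    have h8 : Nat.card {x : Sha (Sh A B) // x + x = 0} = 1 := by
      rw [Nat.card_eq_one_iff_unique]
      refine ⟨⟨fun x y => Subtype.ext ?_⟩, hne⟩
      rw [h6 x.1 x.2, h6 y.1 y.2]
    rw [← h4, h7, h8]
    norm_num

end Pool.Agent.K1H84.DI
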