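import Mathlib
import Pool.Agent.K1H97.BM.Ade
import Pool.Agent.K1H97.BM.Odd
import Pool.Agent.K1H97.BM.Spl
import Pool.Agent.K1H97.BM.Main
import Pool.Agent.K1H82.LQ.Main
import Pool.Agent.K1H82.LQ.Pos

/-!
# Descent on the closed subsets of products of elliptic curves: definitions and the general result

The definitions are those of `MP_ab3ecb_nt/TwistsOfNaturalDensity.lean` (helper97), with one change:
`Explained` makes sense for all number fields, with the statement on the points of odd order only at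
the places `v` above two with `K_v = ℚ_2`.
-/

set_option autoImplicit false

open IsDedekindDomain NumberField WeierstrassCurve MvPolynomial Pool.Agent.TH954

open scoped Classical

namespace Pool.Agent.K1H84.DI

section descent

variable {K : Type} [Field K] {n : ℕ}

/-- The `L`-rational points of the closed subset `X` of `E_1 × … × E_n` defined by the equations in
`S` in the homogeneous coordinates of the `n` points. -/
def LocalPoints (E : Fin n → WeierstrassCurve K) (S : Set (MvPolynomial (Fin n × Fin 3) K))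
    (L : Type) [Field L] [Algebra K L] : Set ((i : Fin n) → ((E i).baseChange L).toAffine.Point) :=
  {P | OnX S (fun i => crd (P i))}

/-- The `K`-rational points of `X`. -/
def RationalPoints (E : Fin n → WeierstrassCurve K) (S : Set (MvPolynomial (Fin n × Fin 3) K)) :
    Set ((i : Fin n) → (E i).toAffine.Point) :=
  {y | ∀ f ∈ S, eval (fun p => crd (y p.1) p.2) f = 0}

/-- The `L`-rational point `P` of `E_1 × … × E_n` lifts to an `L`-rational point of the `N`-covering
given by the cocycles `ξ i`: there are points `Q i` over the algebraic closure with `N • Q i = P i`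
on which the Galois group of `L` acts by translation by the `ξ i`. -/
def Lifts (E : Fin n → WeierstrassCurve K) (N : ℕ)
    (ξ : (i : Fin n) → (AlgebraicClosure K ≃ₐ[K] AlgebraicClosure K) → AlgPt (E i) K)
    (L : Type) [Field L] [Algebra K L] (P : (i : Fin n) → ((E i).baseChange L).toAffine.Point) :
    Prop :=
  ∃ (ι : AlgebraicClosure K →ₐ[K] AlgebraicClosure L) (Q : (i : Fin n) → AlgPt (E i) L),
    (∀ i, N • Q i = incl (E i) L (P i)) ∧
      ∀ i σ τ, Compat ι σ τ → pm (E i) ι (ξ i τ) = act (E i) σ (Q i) - Q i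

/-- `ξ` defines an `N`-covering of `E_1 × … × E_n` -/
def IsCovering (E : Fin n → WeierstrassCurve K) (N : ℕ)
    (ξ : (i : Fin n) → (AlgebraicClosure K ≃ₐ[K] AlgebraicClosure K) → AlgPt (E i) K) : Prop :=
  (∀ i, IsCocycle (E i) (ξ i)) ∧ ∀ i σ, N • ξ i σ = 0

/-- The `N`-Selmer set of `X`: the `N`-coverings of `E_1 × … × E_n` over `K` whose pull-backs to `X`
have points over all the completions of `K`. -/
def SelmerSet [NumberField K] (E : Fin n → WeierstrassCurve K)
    (S : Set (MvPolynomial (Fin n × Fin 3) K)) (N : ℕ) :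
    Set ((i : Fin n) → (AlgebraicClosure K ≃ₐ[K] AlgebraicClosure K) → AlgPt (E i) K) :=
  {ξ | IsCovering E N ξ ∧
    (∀ v : HeightOneSpectrum (𝓞 K), ∃ P ∈ LocalPoints E S (v.adicCompletion K),
      Lifts E N ξ (v.adicCompletion K) P) ∧
    ∀ w : InfinitePlace K, ∃ P ∈ LocalPoints E S w.Completion, Lifts E N ξ w.Completion P}

/-- the adelic points of `X` -/
structure AdelicPoint [NumberField K] (E : Fin n → WeierstrassCurve K)
    (S : Set (MvPolynomial (Fin n × Fin 3) K)) where
  /-- the components at the finite places -/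
  fin : (v : HeightOneSpectrum (𝓞 K)) → (i : Fin n) →
    ((E i).baseChange (v.adicCompletion K)).toAffine.Point
  /-- the components at the infinite places -/
  inf : (w : InfinitePlace K) → (i : Fin n) → ((E i).baseChange w.Completion).toAffine.Point
  fin_mem : ∀ v, fin v ∈ LocalPoints E S (v.adicCompletion K)
  inf_mem : ∀ w, inf w ∈ LocalPoints E S w.Completion

/-- For every `j` the adelic point `P` lifts to an adelic point of a `2 ^ j`-covering. -/
def Survives [NumberField K] {E : Fin n → WeierstrassCurve K}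
    {S : Set (MvPolynomial (Fin n × Fin 3) K)} (P : AdelicPoint E S) : Prop :=
  ∀ j : ℕ, ∃ ξ, IsCovering E (2 ^ j) ξ ∧
    (∀ v : HeightOneSpectrum (𝓞 K), Lifts E (2 ^ j) ξ (v.adicCompletion K) (P.fin v)) ∧
    ∀ w : InfinitePlace K, Lifts E (2 ^ j) ξ w.Completion (P.inf w)

/-- `Y` is the point `y` over `L` -/
def Same (E : Fin n → WeierstrassCurve K) (L : Type) [Field L] [Algebra K L]
    (y : (i : Fin n) → (E i).toAffine.Point)
    (Y : (i : Fin n) → ((E i).baseChange L).toAffine.Point) : Prop :=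
  ∀ i j, crd (Y i) j = algebraMap K L (crd (y i) j)

/-- `P ∈ y + 2 ^ j A(L)` for all `j` -/
def Close (E : Fin n → WeierstrassCurve K) (L : Type) [Field L] [Algebra K L]
    (y : (i : Fin n) → (E i).toAffine.Point)
    (P : (i : Fin n) → ((E i).baseChange L).toAffine.Point) : Prop :=
  ∃ Y, Same E L y Y ∧ ∀ (j : ℕ) (i : Fin n), ∃ z, P i = Y i + 2 ^ j • z

/-- `P` and `y` differ by a point of odd order -/
def OddDifference (E : Fin n → WeierstrassCurve K) (L : Type) [Field L] [Algebra K L]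
    (y : (i : Fin n) → (E i).toAffine.Point)
    (P : (i : Fin n) → ((E i).baseChange L).toAffine.Point) : Prop :=
  ∃ Y, Same E L y Y ∧ ∀ i, ∃ m : ℕ, Odd m ∧ m • P i = m • Y i

/-- For all the closed subsets `X` of `E_1 × … × E_n` over `K` and for all adelic points `P` of `X`
which survive the descents by `2 ^ j`-coverings for all `j` there is a `K`-rational point `y` of
`E_1 × … × E_n` such that `P_v ∈ y + 2 ^ j A(K_v)` for all the places `v` and all `j`, and such that `P_v`
and `y` differ by a point of odd order at the places `v` above two with `K_v = ℚ_2`. -/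
def Explained [NumberField K] (E : Fin n → WeierstrassCurve K) : Prop :=
  ∀ S : Set (MvPolynomial (Fin n × Fin 3) K), (∀ f ∈ S, ∃ d, MultiHom d f) →
    ∀ P : AdelicPoint E S, Survives P → ∃ y : (i : Fin n) → (E i).toAffine.Point,
      (∀ v, Close E (v.adicCompletion K) y (P.fin v)) ∧ (∀ w, Close E w.Completion y (P.inf w)) ∧
      ∀ v : HeightOneSpectrum (𝓞 K), ((2 : ℕ) : 𝓞 K) ∈ v.asIdeal →
        Nonempty (ℚ_[2] ≃+* v.adicCompletion K) → OddDifference E (v.adicCompletion K) y (P.fin v)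

/-- For all the closed subsets `X` of `E_1 × … × E_n` over `K`: for all adelic points `P` of `X` which
survive the descents by `2 ^ j`-coverings for all `j` there is a `K`-rational point `y` of `X` such that
`P_v ∈ y + 2 ^ j A(K_v)` for all the places `v` and all `j`, and `P_v = y` for all the places `v` above
two; and if `X` has no `K`-rational points, then there is `j` such that the `2 ^ j`-Selmer set of `X` is
empty. -/
def FullyExplained [NumberField K] (E : Fin n → WeierstrassCurve K) : Prop :=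
  ∀ S : Set (MvPolynomial (Fin n × Fin 3) K), (∀ f ∈ S, ∃ d, MultiHom d f) →
    (∀ P : AdelicPoint E S, Survives P → ∃ y ∈ RationalPoints E S,
      (∀ v, Close E (v.adicCompletion K) y (P.fin v)) ∧ (∀ w, Close E w.Completion y (P.inf w)) ∧
      ∀ v : HeightOneSpectrum (𝓞 K), ((2 : ℕ) : 𝓞 K) ∈ v.asIdeal →
        Same E (v.adicCompletion K) y (P.fin v)) ∧
    (RationalPoints E S = ∅ → ∃ j : ℕ, SelmerSet E S (2 ^ j) = ∅)

end descent

section

variable {K : Type} [Field K] [NumberField K] {n : ℕ}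

lemma sel_of {E : Fin n → WeierstrassCurve K} {S : Set (MvPolynomial (Fin n × Fin 3) K)}
    {P : AdelicPoint E S} (hP : Survives P) (j : ℕ) :
    ∃ ξ ∈ Pool.Agent.R425.D.SelSet E S (2 ^ j),
      (∀ v : HeightOneSpectrum (𝓞 K),
        Pool.Agent.K1H97.BM.CovAt E (2 ^ j) ξ (v.adicCompletion K) (P.fin v)) ∧
      ∀ w : InfinitePlace K, Pool.Agent.K1H97.BM.CovAt E (2 ^ j) ξ w.Completion (P.inf w) := by
  obtain ⟨ξ, ⟨h1, h2⟩, h3, h4⟩ := hP j
  refine ⟨ξ, ⟨h1, h2, fun v => ?_, fun w => ?_⟩, h3, h4⟩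
  · obtain ⟨ι, Q, g1, g2⟩ := h3 v
    exact ⟨ι, P.fin v, Q, P.fin_mem v, g1, g2⟩
  · obtain ⟨ι, Q, g1, g2⟩ := h4 w
    exact ⟨ι, P.inf w, Q, P.inf_mem w, g1, g2⟩

lemma sel_iff (E : Fin n → WeierstrassCurve K) (S : Set (MvPolynomial (Fin n × Fin 3) K)) (N : ℕ) :
    SelmerSet E S N = Pool.Agent.R425.D.SelSet E S N := by
  ext ξ
  have key : ∀ (L : Type) [Field L] [Algebra K L],
      (∃ P ∈ LocalPoints E S L, Lifts E N ξ L P) ↔ Pool.Agent.R425.D.CovPt E S N ξ L := by
    intro L _ _
    constructor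
    · rintro ⟨P, hP, ι, Q, h1, h2⟩
      exact ⟨ι, P, Q, hP, h1, h2⟩
    · rintro ⟨ι, P, Q, hP, h1, h2⟩
      exact ⟨P, hP, ι, Q, h1, h2⟩
  constructor
  · rintro ⟨⟨h1, h2⟩, h3, h4⟩
    exact ⟨h1, h2, fun v => (key _).1 (h3 v), fun w => (key _).1 (h4 w)⟩
  · rintro ⟨h1, h2, h3, h4⟩
    exact ⟨⟨h1, h2⟩, fun v => (key _).2 (h3 v), fun w => (key _).2 (h4 w)⟩

lemma close_of {E : Fin n → WeierstrassCurve K} {L : Type} [Field L] [Algebra K L]
    {y : (i : Fin n) → (E i).toAffine.Point}
    {P : (i : Fin n) → ((E i).baseChange L).toAffine.Point}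
    (h : ∀ (k : ℕ) i, ∃ z, P i - locHom (L := L) (E i) (y i) = 2 ^ k • z) : Close E L y P := by
  refine ⟨fun i => locHom (L := L) (E i) (y i), fun i j => crd_loc (L := L) (E i) (y i) j,
    fun j i => ?_⟩
  obtain ⟨z, hz⟩ := h j i
  exact ⟨z, by rw [← hz]; abel⟩

variable (a b : Fin n → ℤ)

/-- the first part, for curves with finitely many points and Ш[2^∞] of finite exponent -/
theorem explained_of (hD : ∀ i, 4 * a i ^ 3 + 27 * b i ^ 2 ≠ 0) {N : ℕ}
    (hfin : ∀ i, Finite (Pool.Agent.K1H97.BM.cv (a i) (b i) K).toAffine.Point)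
    (hsha : ∀ i, Pool.Agent.K1H97.BM.Kill (Pool.Agent.K1H97.BM.cv (a i) (b i) K) N) :
    Explained (fun i => Pool.Agent.K1H97.BM.cv (a i) (b i) K) := by
  intro S hS P hP
  obtain ⟨y, h1, h2⟩ := Pool.Agent.K1H97.BM.adele _ hfin hsha S P.fin P.inf (sel_of hP)
  refine ⟨y, fun v => close_of (h1 v), fun w => close_of (h2 w), fun v _ hv => ?_⟩
  obtain ⟨e⟩ := hv
  refine ⟨fun i => locHom (L := v.adicCompletion K) _ (y i),
    fun i j => crd_loc (L := v.adicCompletion K) _ (y i) j, fun i => ?_⟩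
  obtain ⟨m, hm, h3⟩ := Pool.Agent.K1H97.BM.odd_at (hD i) v e _ (fun k => h1 v k i)
  refine ⟨m, hm, ?_⟩
  rw [smul_sub] at h3
  exact sub_eq_zero.1 h3

/-- the second part, if there are no points of odd order over `ℚ_2` and two splits completely -/
theorem fully_of (hD : ∀ i, 4 * a i ^ 3 + 27 * b i ^ 2 ≠ 0) {N : ℕ}
    (hfin : ∀ i, Finite (Pool.Agent.K1H97.BM.cv (a i) (b i) K).toAffine.Point)
    (hsha : ∀ i, Pool.Agent.K1H97.BM.Kill (Pool.Agent.K1H97.BM.cv (a i) (b i) K) N)
    (hiso : ∀ v : HeightOneSpectrum (𝓞 K), ((2 : ℕ) : 𝓞 K) ∈ v.asIdeal →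
      Nonempty (ℚ_[2] ≃+* v.adicCompletion K))
    (hodd : ∀ i (T : (Pool.Agent.K1H97.BM.cv (a i) (b i) ℚ_[2]).toAffine.Point) (m : ℕ), Odd m →
      m • T = 0 → T = 0) :
    FullyExplained (fun i => Pool.Agent.K1H97.BM.cv (a i) (b i) K) := by
  refine fun S hS => ⟨fun P hP => ?_, fun hX => ?_⟩
  · obtain ⟨y, h1, h2⟩ := Pool.Agent.K1H97.BM.adele _ hfin hsha S P.fin P.inf (sel_of hP)
    have hsame : ∀ v : HeightOneSpectrum (𝓞 K), ((2 : ℕ) : 𝓞 K) ∈ v.asIdeal →
        Same (fun i => Pool.Agent.K1H97.BM.cv (a i) (b i) K) (v.adicCompletion K) y (P.fin v) := by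
      intro v hv i
      obtain ⟨e⟩ := hiso v hv
      obtain ⟨m, hm, h3⟩ := Pool.Agent.K1H97.BM.odd_at (hD i) v e _ (fun k => h1 v k i)
      have h4 := Pool.Agent.K1H97.BM.no_odd_at (hodd i) v e _ hm h3
      intro j
      rw [sub_eq_zero.1 h4]
      exact crd_loc (L := v.adicCompletion K) _ (y i) j
    refine ⟨y, fun f hf => ?_, fun v => close_of (h1 v), fun w => close_of (h2 w), hsame⟩
    obtain ⟨v, hv⟩ := Pool.Agent.K1H97.BM.exists_two K
    have h5 := P.fin_mem v f hf
    rw [aeval_def] at h5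
    have e2 : (fun p : Fin n × Fin 3 => crd (P.fin v p.1) p.2) =
        fun p => algebraMap K (v.adicCompletion K) (crd (y p.1) p.2) := by
      funext p
      exact hsame v hv p.1 p.2
    rw [e2] at h5
    have h6 : eval₂ (algebraMap K (v.adicCompletion K))
        (fun p => algebraMap K (v.adicCompletion K) (crd (y p.1) p.2)) f =
        algebraMap K (v.adicCompletion K) (eval (fun p => crd (y p.1) p.2) f) :=
      (eval₂_comp_left (algebraMap K (v.adicCompletion K)) (RingHom.id K) _ f).symm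
    rw [h6, map_eq_zero] at h5
    exact h5
  · obtain ⟨v, hv⟩ := Pool.Agent.K1H97.BM.exists_two K
    obtain ⟨e⟩ := hiso v hv
    obtain ⟨k, hk⟩ := Pool.Agent.K1H97.BM.empt2 a b hD hfin hsha hodd S hS v e (fun y hy => by
      have : y ∈ (∅ : Set _) := by
        rw [← hX]
        exact hy
      exact this)
    exact ⟨k, by rw [sel_iff]; exact hk⟩

end

/-- the curve `y² = x³ + A x + B` over `L`, `c = (A, B)` -/
def E (L : Type) [Field L] (c : ℤ × ℤ) : WeierstrassCurve L := ⟨0, 0, 0, (c.1 : L), (c.2 : L)⟩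

/-- the curve has no points of odd order over the field of the 2-adic numbers, except zero -/
def NoOddOrder (c : ℤ × ℤ) : Prop :=
  ∀ (P : (E ℚ_[2] c).toAffine.Point) (m : ℕ), Odd m → m • P = 0 → P = 0

/-- `K = ℚ(√D)` -/
def IsSqrtField (D : ℤ) (K : Type) [Field K] [NumberField K] : Prop :=
  ∃ r : K, r ^ 2 = (D : K) ∧ IntermediateField.adjoin ℚ {r} = ⊤

/-- For the field `K = ℚ(√D)` and all the closed subsets over `K` of all the powers of the curve. -/
def OverSqrt (D : ℤ) (c : ℤ × ℤ) : Prop :=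
  ∀ (K : Type) [Field K] [NumberField K], IsSqrtField D K → ∀ m : ℕ,
    Explained (fun _ : Fin m => E K c) ∧
    (IsSquare ((D : ℤ) : ℚ_[2]) → NoOddOrder c → FullyExplained (fun _ : Fin m => E K c))

theorem over_of {c : ℤ × ℤ} (hD : 4 * c.1 ^ 3 + 27 * c.2 ^ 2 ≠ 0) {e : ℤ}
    (he : e ^ 3 + c.1 * e + c.2 = 0) {D : ℤ} (hD0 : D ≠ 0)
    (h0 : Pool.Agent.Y723.QT.Tr c.1 c.2)
    (h : Pool.Agent.Y723.QT.Tr (D ^ 2 * c.1) (D ^ 3 * c.2)) : OverSqrt D c := by
  intro K _ _ hK m
  obtain ⟨h1, -, h3⟩ := Pool.Agent.K1H82.LQ.settled_of hD he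
    (Pool.Agent.Y723.QT.triv2 hD he hD0 h0 h K hK)
  have hk : Pool.Agent.K1H97.BM.Kill (Pool.Agent.K1H97.BM.cv c.1 c.2 K) 1 := by
    intro k x hx
    rw [pow_one]
    exact h3 k x hx
  refine ⟨explained_of (fun _ : Fin m => c.1) (fun _ => c.2) (fun _ => hD) (fun _ => h1)
    (fun _ => hk), fun hs hodd => ?_⟩
  refine fully_of (fun _ : Fin m => c.1) (fun _ => c.2) (fun _ => hD) (fun _ => h1)
    (fun _ => hk) (fun v hv => ?_) (fun _ => hodd)
  obtain ⟨r, hr1, hr2⟩ := hK
  exact Pool.Agent.K1H97.BM.split_sq v (fun _ : Fin 1 => r) (fun _ => D) (fun _ => hr1)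
    (fun _ => hs) (by rw [Set.range_const]; exact hr2) hv

end Pool.Agent.K1H84.DI
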